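import Pool.Agent.V7H85.BS.Spec

/-! Piece ONE: the known case `k = 1`. -/

set_option autoImplicit false

namespace Pool.Agent.V7H34.BS

open Finset Pool.Agent.V7H85.BS
open Pool.Agent.Results.MP_2c585b_nt.GoldInverseSum (chi)

section

variable {F : Type} [Field F]

lemma inv_add_one_ne {v : Fˣ} (h2 : (2 : F) = 0) (h : v ≠ 1) : (v : F)⁻¹ + 1 ≠ 0 := by
  intro h1
  apply h
  have h3 : (v : F) * ((v : F)⁻¹ + 1) = 0 := by rw [h1, mul_zero]
  rw [mul_add, mul_inv_cancel₀ v.ne_zero, mul_one] at h3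
  apply Units.ext
  rw [Units.val_one]
  linear_combination h3 - h2

open Classical in
/-- the substitution -/
noncomputable def sub (h2 : (2 : F) = 0) (v : Fˣ) : Fˣ :=
  if h : v = 1 then 1 else Units.mk0 ((v : F)⁻¹ + 1) (inv_add_one_ne h2 h)

lemma sub_inj (h2 : (2 : F) = 0) : Function.Injective (sub h2 : Fˣ → Fˣ) := by
  intro v w h
  unfold sub at h
  by_cases hv : v = 1 <;> by_cases hw : w = 1
  · rw [hv, hw]
  · rw [dif_pos hv, dif_neg hw] at h
    have h1 := congrArg (fun x : Fˣ => (x : F)) h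
    simp only [Units.val_one, Units.val_mk0] at h1
    have h3 : (w : F)⁻¹ = 0 := by linear_combination -h1
    exact absurd h3 (inv_ne_zero w.ne_zero)
  · rw [dif_neg hv, dif_pos hw] at h
    have h1 := congrArg (fun x : Fˣ => (x : F)) h
    simp only [Units.val_one, Units.val_mk0] at h1
    have h3 : (v : F)⁻¹ = 0 := by linear_combination h1
    exact absurd h3 (inv_ne_zero v.ne_zero)
  · rw [dif_neg hv, dif_neg hw] at h
    have h1 := congrArg (fun x : Fˣ => (x : F)) h
    simp only [Units.val_mk0] at h1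
    have h3 : (v : F)⁻¹ = (w : F)⁻¹ := by linear_combination h1
    exact Units.ext (inv_injective h3)

end

/-- **piece ONE** -/
theorem t_ONE : S_ONE := by
  intro F _ _ _ _ n _ _
  have hch : CharP F 2 := charP_of_injective_algebraMap (algebraMap (ZMod 2) F).injective 2
  have h2 : (2 : F) = 0 := CharTwo.two_eq_zero
  have hb : Function.Bijective (sub h2 : Fˣ → Fˣ) := Finite.injective_iff_bijective.1 (sub_inj h2)
  rw [← hb.sum_comp (fun x : Fˣ => chi F ((x : F) + (x : F)⁻¹))]
  apply sum_congr rfl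
  intro v _
  congr 1
  unfold sub
  by_cases hv : v = 1
  · rw [dif_pos hv, hv, Units.val_one, inv_one]
    have h3 : (1 : F) + 1 = 0 := by linear_combination h2
    rw [h3]
    simp [h3]
  · rw [dif_neg hv, Units.val_mk0]
    have hv0 : (v : F) ≠ 0 := v.ne_zero
    have hv1 : (v : F) + 1 ≠ 0 := by
      intro h
      apply hv
      apply Units.ext
      rw [Units.val_one]
      linear_combination h - h2
    have h4 : (v : F)⁻¹ + 1 ≠ 0 := inv_add_one_ne h2 hv
    have h5 : (v : F) ^ 2 ^ 1 + v = v * (v + 1) := by ring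
    have h6 : (v : F)⁻¹ + 1 = (v + 1) / v := by
      field_simp
      ring
    rw [h5, h6]
    have h7 : (v : F) ^ 2 ^ 1 + 1 = (v + 1) ^ 2 := by
      linear_combination -(v : F) * h2
    have e1 : ((v : F) + 1) ^ 2 * (v : F) ^ 2 ^ 1 / ((v : F) * (v + 1)) ^ (2 ^ 1 + 1) =
        1 / ((v : F) * (v + 1)) := by
      rw [div_eq_div_iff (pow_ne_zero _ (mul_ne_zero hv0 hv1)) (mul_ne_zero hv0 hv1)]
      ring
    have e2 : ((v : F) + 1) / v + (((v : F) + 1) / v)⁻¹ =
        (((v : F) + 1) ^ 2 + v ^ 2) / ((v : F) * (v + 1)) := by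
      rw [inv_div, div_add_div _ _ hv0 hv1]
      ring
    have e3 : ((v : F) + 1) ^ 2 + v ^ 2 = 1 := by
      linear_combination ((v : F) ^ 2 + v) * h2
    rw [h7, e1, e2, e3]

end Pool.Agent.V7H34.BS
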